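import Mathlib

/-!
A circulant graph on 13 vertices that is regular and self-complementary with `F(G) = V(G)` and
`N(G) = E(G)`, but is not strongly regular.
-/

namespace Pool.Agent.Results.MP_a93e77_co.NotStronglyRegular

variable {V : Type*}

/-- `P` is an isomorphism-permutation of `G`: an isomorphism from `G` onto its complement. -/
def IsoPerm (G : SimpleGraph V) (P : Equiv.Perm V) : Prop :=
  ∀ u v, u ≠ v → (G.Adj u v ↔ ¬ G.Adj (P u) (P v))

/-- `G` is self-complementary. -/
def SelfComplementary (G : SimpleGraph V) : Prop := ∃ P : Equiv.Perm V, IsoPerm G P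

/-- `F(G)`: the vertices fixed by some isomorphism-permutation. -/
def F (G : SimpleGraph V) : Set V := {v | ∃ P : Equiv.Perm V, IsoPerm G P ∧ P v = v}

/-- `N(G)`: the edges `uv` for which some isomorphism-permutation `P` has `P u = v` or `P v = u`. -/
def N (G : SimpleGraph V) : Set (Sym2 V) :=
  {e | ∃ u v : V, e = s(u, v) ∧ G.Adj u v ∧ ∃ P : Equiv.Perm V, IsoPerm G P ∧ (P u = v ∨ P v = u)}

/-- Every edge lies in the same number of triangles and every two distinct nonadjacent vertices
have the same number of common neighbours. -/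
def StronglyRegular (G : SimpleGraph V) : Prop :=
  (∃ l : ℕ, ∀ u v, G.Adj u v → (G.commonNeighbors u v).ncard = l) ∧
  (∃ m : ℕ, ∀ u v, u ≠ v → ¬ G.Adj u v → (G.commonNeighbors u v).ncard = m)

/-- the connection set -/
def S : Finset (ZMod 13) := {1, 2, 4, 9, 11, 12}

/-- adjacency of the circulant graph -/
def adj (i j : ZMod 13) : Prop := j - i ∈ S

instance : DecidableRel adj := fun i j => inferInstanceAs (Decidable (j - i ∈ S))

/-- The circulant graph. -/
def G : SimpleGraph (ZMod 13) where
  Adj := adj
  symm := by
    constructor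
    have h : ∀ i j, adj i j → adj j i := by decide +kernel
    exact h
  loopless := by
    constructor
    have h : ∀ i, ¬ adj i i := by decide +kernel
    exact h

instance : DecidableRel G.Adj := inferInstanceAs (DecidableRel adj)

/-- The antimorphism `x ↦ 8 x + b`. -/
def P (b : ZMod 13) : Equiv.Perm (ZMod 13) where
  toFun := fun x => 8 * x + b
  invFun := fun y => 5 * (y - b)
  left_inv := by
    have h : ∀ b x : ZMod 13, 5 * (8 * x + b - b) = x := by decide +kernel
    exact h b
  right_inv := by
    have h : ∀ b x : ZMod 13, 8 * (5 * (x - b)) + b = x := by decide +kernel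
    exact h b

theorem P_iso (b : ZMod 13) : IsoPerm G (P b) := by
  have h : ∀ b u v : ZMod 13, u ≠ v → (adj u v ↔ ¬ adj (8 * u + b) (8 * v + b)) := by
    decide +kernel
  exact h b

theorem common (u v : ZMod 13) : (G.commonNeighbors u v).ncard =
    (Finset.univ.filter (fun w => adj u w ∧ adj v w)).card := by
  rw [← Set.ncard_coe_finset]
  congr 1
  ext w
  simp [SimpleGraph.mem_commonNeighbors, G]

/-- **Main theorem.** There is a regular self-complementary graph `G` with `F(G) = V(G)` and
`N(G) = E(G)` that is not strongly regular. -/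
theorem result : ∃ (V : Type) (_ : Fintype V) (G : SimpleGraph V) (_ : DecidableRel G.Adj)
    (d : ℕ), G.IsRegularOfDegree d ∧ SelfComplementary G ∧ F G = Set.univ ∧ N G = G.edgeSet ∧
      ¬ StronglyRegular G := by
  refine ⟨ZMod 13, inferInstance, G, inferInstance, 6, ?_, ⟨P 0, P_iso 0⟩, ?_, ?_, ?_⟩
  · have h : ∀ i : ZMod 13, (Finset.univ.filter (fun j => adj i j)).card = 6 := by decide +kernel
    intro i
    rw [SimpleGraph.degree, SimpleGraph.neighborFinset_eq_filter]
    exact h i
  · refine Set.eq_univ_of_forall ?_
    intro v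
    refine ⟨P (v - 8 * v), P_iso _, ?_⟩
    change 8 * v + (v - 8 * v) = v
    ring
  · ext e
    constructor
    · rintro ⟨u, v, rfl, h, -⟩
      exact h
    · induction e using Sym2.ind with
      | _ u v =>
        intro h
        refine ⟨u, v, rfl, h, P (v - 8 * u), P_iso _, Or.inl ?_⟩
        change 8 * u + (v - 8 * u) = v
        ring
  · rintro ⟨⟨l, hl⟩, -⟩
    have h1 := hl 0 1 (by decide +kernel)
    have h2 := hl 0 2 (by decide +kernel)
    rw [common] at h1 h2
    have h3 : (Finset.univ.filter (fun w => adj 0 w ∧ adj 1 w)).card = 2 := by decide +kernel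
    have h4 : (Finset.univ.filter (fun w => adj 0 w ∧ adj 2 w)).card = 3 := by decide +kernel
    omega

end Pool.Agent.Results.MP_a93e77_co.NotStronglyRegular
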